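import Pool.Graph.R_pool_sql_team_ae5b0c61.H55.CSel

set_option autoImplicit false

/-! Intrinsic characterisations of `C`-selective and of strongly `C`-selective spaces. -/

namespace Pool.Agent.Results.MP_f865b7_gt.Characterisation

open Set Filter Topology Pool.Agent.H55.CSel

universe u

variable {X : Type u} [TopologicalSpace X]

/-- The sequence selection property of `X` for sets with property `P`: for every point `x` and every
sequence `A n` of nonempty sets with property `P` there are points `a n ∈ A n` such that for every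
neighbourhood `U` of `x` there is a neighbourhood `V` of `x` with `a n ∈ U` for all but finitely many
of the `n` such that `A n` meets `V`. -/
def SeqSel (X : Type u) [TopologicalSpace X] (P : Set X → Prop) : Prop :=
  ∀ (x : X) (A : ℕ → Set X), (∀ n, (A n).Nonempty ∧ P (A n)) →
    ∃ a : ℕ → X, (∀ n, a n ∈ A n) ∧
      ∀ U ∈ 𝓝 x, ∃ V ∈ 𝓝 x, ∀ᶠ n in atTop, (A n ∩ V).Nonempty → a n ∈ U

/-- `Y` has at most one non-isolated point. -/
def AlmostDiscrete (Y : Type) [TopologicalSpace Y] : Prop := ∃ p : Y, ∀ y, y ≠ p → IsOpen ({y} : Set Y)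

/-- `X` is `Y`-selective for every countable regular (`T₁`) space `Y` with at most one non-isolated
point. -/
def PointSelective (X : Type u) [TopologicalSpace X] : Prop :=
  ∀ (Y : Type) [TopologicalSpace Y] [Countable Y] [T1Space Y] [RegularSpace Y],
    AlmostDiscrete Y → Selective Y X

/-- `X` is strongly `Y`-selective for every countable regular (`T₁`) space `Y` with at most one
non-isolated point. -/
def StronglyPointSelective (X : Type u) [TopologicalSpace X] : Prop :=
  ∀ (Y : Type) [TopologicalSpace Y] [Countable Y] [T1Space Y] [RegularSpace Y],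
    AlmostDiscrete Y → StronglySelective Y X

/-- `X` is countably tight. -/
def CountablyTight (X : Type u) [TopologicalSpace X] : Prop :=
  ∀ (A : Set X) (x : X), x ∈ closure A → ∃ C ⊆ A, C.Countable ∧ x ∈ closure C

/-- weak form of the sequence selection property -/
def SetSel (X : Type u) [TopologicalSpace X] (P : Set X → Prop) : Prop :=
  ∀ (x : X) (A : ℕ → Set X), (∀ n, (A n).Nonempty ∧ P (A n)) →
    ∃ C : ℕ → Set X, (∀ n, C n ⊆ A n ∧ (C n).Countable) ∧
      ∀ U ∈ 𝓝 x, ∃ V ∈ 𝓝 x, ∀ᶠ n in atTop, (A n ∩ V).Nonempty → (C n ∩ U).Nonempty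

lemma seqSel_of_point (P : Set X → Prop) (hP : ∀ x, P {x})
    (h : ∀ (Y : Type) [TopologicalSpace Y] [Countable Y] [T1Space Y] [RegularSpace Y],
      AlmostDiscrete Y → ∀ φ : Y → Set X, LSC φ → (∀ y, (φ y).Nonempty ∧ P (φ y)) →
        ∃ f : Y → X, Continuous f ∧ ∀ y, f y ∈ φ y) : SeqSel X P := by
  intro x A hA
  letI τ : TopologicalSpace (Option ℕ) :=
    { IsOpen := fun S => none ∈ S → ∃ V ∈ 𝓝 x, ∀ᶠ n in atTop, (A n ∩ V).Nonempty → some n ∈ S
      isOpen_univ := fun _ => ⟨univ, univ_mem, Eventually.of_forall fun _ _ => trivial⟩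
      isOpen_inter := fun S T hS hT hn => by
        obtain ⟨V, h1, h2⟩ := hS hn.1
        obtain ⟨W, h3, h4⟩ := hT hn.2
        refine ⟨V ∩ W, inter_mem h1 h3, ?_⟩
        filter_upwards [h2, h4] with n h5 h6 h7
        exact ⟨h5 (h7.mono (inter_subset_inter_right _ inter_subset_left)),
          h6 (h7.mono (inter_subset_inter_right _ inter_subset_right))⟩
      isOpen_sUnion := fun s hs ⟨S, h1, h2⟩ => by
        obtain ⟨V, h3, h4⟩ := hs S h1 h2
        exact ⟨V, h3, h4.mono fun n h5 h6 => ⟨S, h1, h5 h6⟩⟩ }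
  have hop : ∀ S : Set (Option ℕ), IsOpen S ↔
      (none ∈ S → ∃ V ∈ 𝓝 x, ∀ᶠ n in atTop, (A n ∩ V).Nonempty → some n ∈ S) := fun _ => Iff.rfl
  have hcl : ∀ y : Option ℕ, IsClosed ({y} : Set (Option ℕ)) := by
    intro y
    refine ⟨(hop _).2 fun hn => ?_⟩
    rcases y with _ | i
    · exact absurd rfl hn
    · refine ⟨univ, univ_mem, (eventually_gt_atTop i).mono fun n hn _ e => ?_⟩
      have : n = i := by simpa using e
      omega
  have : T1Space (Option ℕ) := ⟨hcl⟩
  have : RegularSpace (Option ℕ) := by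
    refine RegularSpace.of_exists_mem_nhds_isClosed_subset fun y s hs => ?_
    rcases y with _ | p
    · exact ⟨s, hs, ⟨(hop _).2 fun hn => absurd (mem_of_mem_nhds hs) hn⟩, Subset.rfl⟩
    · refine ⟨{some p}, IsOpen.mem_nhds ((hop _).2 fun hn => by simp at hn) rfl, hcl _, ?_⟩
      simpa using mem_of_mem_nhds hs
  obtain ⟨f, hf, hf'⟩ := h (Option ℕ) ⟨none, fun y hy => (hop _).2 fun hn => absurd hn.symm hy⟩
    (fun y => Option.casesOn y {x} fun n => A n) (by
      intro U hU
      refine (hop _).2 fun ⟨z, hz, hzU⟩ => ⟨U, hU.mem_nhds (hz ▸ hzU), ?_⟩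
      exact Eventually.of_forall fun n hn => hn) (by
      rintro (_ | p)
      · exact ⟨singleton_nonempty x, hP x⟩
      · exact hA p)
  have hx : f none = x := hf' none
  refine ⟨fun n => f (some n), fun n => hf' (some n), fun U hU => ?_⟩
  obtain ⟨V, h1, h2⟩ := (hop _).1 (isOpen_interior.preimage hf (t := interior U))
    (by show f none ∈ interior U; rw [hx]; exact mem_interior_iff_mem_nhds.2 hU)
  exact ⟨V, h1, h2.mono fun n h3 h4 => interior_subset (h3 h4)⟩

/-- Countable subspaces are first countable. -/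
lemma fc_of_seqSel [T1Space X] {P : Set X → Prop} (hP : ∀ x y, P {x, y}) (h : SeqSel X P)
    {D : Set X} (hD : D.Countable) (x : X) : FC D x := by
  by_cases h0 : ∃ V0 ∈ 𝓝 x, ∀ z ∈ D \ {x}, z ∉ V0
  · obtain ⟨V0, h1, h2⟩ := h0
    refine ⟨fun _ => interior V0, fun _ => ⟨isOpen_interior, mem_interior_iff_mem_nhds.2 h1⟩,
      antitone_const, fun V hV => ⟨0, fun z hz => ?_⟩⟩
    by_cases hz' : z = x
    · rw [hz']
      exact mem_of_mem_nhds hV
    · exact absurd (interior_subset hz.2) (h2 z ⟨hz.1, hz'⟩)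
  push Not at h0
  obtain ⟨d, hd⟩ := (hD.mono (sdiff_subset (t := {x}))).exists_eq_range
    (by obtain ⟨z, hz, -⟩ := h0 univ univ_mem; exact ⟨z, hz⟩)
  have hdx : ∀ i, d i ≠ x := fun i => by
    have : d i ∈ D \ {x} := hd ▸ mem_range_self i
    exact this.2
  obtain ⟨a, ha, ha'⟩ := h x (fun n => {d (Nat.unpair n).1, d (Nat.unpair n).2})
    (fun n => ⟨insert_nonempty _ _, hP _ _⟩)
  let f : ℕ → ℕ → X := fun i j => a (Nat.pair i j)
  have hf' : ∀ i j, f i j = d i ∨ f i j = d j := by
    intro i j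
    have h1 := ha (Nat.pair i j)
    simp only [Nat.unpair_pair] at h1
    exact h1
  have key : ∀ V ∈ 𝓝 x, ∃ V' ∈ 𝓝 x, ∀ i j, (d i ∈ V' ∨ d j ∈ V') → f i j ∈ V := by
    intro V hV
    obtain ⟨V', h1, h2⟩ := ha' V hV
    obtain ⟨N, hN⟩ := eventually_atTop.1 h2
    refine ⟨V' ∩ ⋂ n ∈ Iio N, ({d (Nat.unpair n).1}ᶜ ∩ {d (Nat.unpair n).2}ᶜ), ?_, ?_⟩
    · refine inter_mem h1 ((biInter_mem (finite_Iio N)).2 fun n _ => inter_mem ?_ ?_)
      · exact isOpen_compl_singleton.mem_nhds (hdx _).symm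
      · exact isOpen_compl_singleton.mem_nhds (hdx _).symm
    · intro i j hij
      by_cases hn : Nat.pair i j < N
      · exfalso
        rcases hij with h3 | h3
        · have h4 := mem_iInter₂.1 h3.2 _ hn
          simp only [Nat.unpair_pair] at h4
          exact h4.1 rfl
        · have h4 := mem_iInter₂.1 h3.2 _ hn
          simp only [Nat.unpair_pair] at h4
          exact h4.2 rfl
      · refine hN _ (not_lt.1 hn) ?_
        simp only [Nat.unpair_pair]
        rcases hij with h3 | h3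
        exacts [⟨d i, Or.inl rfl, h3.1⟩, ⟨d j, Or.inr rfl, h3.1⟩]
  choose O hO hO' using fun j => key {d j}ᶜ (isOpen_compl_singleton.mem_nhds (hdx j).symm)
  refine ⟨fun k => ⋂ j ∈ Iic k, interior (O j), fun k =>
    ⟨(finite_Iic k).isOpen_biInter fun _ _ => isOpen_interior,
      mem_iInter₂.2 fun j _ => mem_interior_iff_mem_nhds.2 (hO j)⟩,
    fun a b hab => biInter_subset_biInter_left (Iic_subset_Iic.2 hab), fun V hV => ?_⟩
  obtain ⟨V', h1, h2⟩ := key V hV
  obtain ⟨z, hz, hz'⟩ := h0 V' h1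
  rw [hd] at hz
  obtain ⟨j, rfl⟩ := hz
  refine ⟨j, fun w hw => ?_⟩
  by_cases hw' : w = x
  · rw [hw']
    exact mem_of_mem_nhds hV
  · have : w ∈ range d := hd ▸ ⟨hw.1, hw'⟩
    obtain ⟨i, rfl⟩ := this
    have h3 := hO' j j i (Or.inr (interior_subset (mem_iInter₂.1 hw.2 j (mem_Iic.2 le_rfl))))
    have h4 := h2 j i (Or.inl hz')
    rcases hf' j i with h5 | h5
    · exact absurd h5 h3
    · exact h5 ▸ h4

/-- closing-off and Michael's theorem -/
lemma selection {P : Set X → Prop} (hS : SetSel X P)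
    (hfc : ∀ D : Set X, D.Countable → ∀ x, FC D x)
    (Y : Type) [TopologicalSpace Y] [Countable Y] [T1Space Y] [RegularSpace Y]
    (φ : Y → Set X) (hl : LSC φ) (hne : ∀ y, (φ y).Nonempty ∧ P (φ y)) :
    ∃ f : Y → X, Continuous f ∧ ∀ y, f y ∈ φ y := by
  classical
  have hE : ∀ (y : Y) (x : X), ∃ E : Set X, E.Countable ∧ (x ∈ φ y → ∀ U, IsOpen U → x ∈ U →
      ∀ᶠ y' in 𝓝 y, (φ y' ∩ E ∩ U).Nonempty) := by
    intro y x
    obtain ⟨e, he⟩ := @exists_surjective_nat Y ⟨y⟩ _
    obtain ⟨C, hC, hC'⟩ := hS x (fun n => φ (e n)) (fun n => hne (e n))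
    refine ⟨insert x (⋃ n, C n), (countable_iUnion fun n => (hC n).2).insert x, ?_⟩
    intro hx U hU hxU
    obtain ⟨V, hV, hVn⟩ := hC' U (hU.mem_nhds hxU)
    obtain ⟨N, hN⟩ := eventually_atTop.1 hVn
    have h1 : {y' | (φ y' ∩ interior V).Nonempty} ∈ 𝓝 y :=
      (hl _ isOpen_interior).mem_nhds ⟨x, hx, mem_interior_iff_mem_nhds.2 hV⟩
    have h2 : ((e '' Iio N) \ {y})ᶜ ∈ 𝓝 y :=
      (((finite_Iio N).image e).subset sdiff_subset).isClosed.isOpen_compl.mem_nhds
        (fun h => h.2 rfl)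
    filter_upwards [h1, h2] with y' h3 h4
    by_cases hy : y' = y
    · subst hy
      exact ⟨x, ⟨hx, mem_insert _ _⟩, hxU⟩
    · obtain ⟨n, rfl⟩ := he y'
      have hn : N ≤ n := by
        by_contra hlt
        exact h4 ⟨⟨n, not_le.1 hlt, rfl⟩, hy⟩
      obtain ⟨z, hz1, hz2⟩ := hN n hn (h3.mono (inter_subset_inter_right _ interior_subset))
      exact ⟨z, ⟨(hC n).1 hz1, Or.inr (mem_iUnion.2 ⟨n, hz1⟩)⟩, hz2⟩
  choose E hE1 hE2 using hE
  choose x0 hx0 using fun y => (hne y).1
  let D : ℕ → Set X := fun n => Nat.rec (range x0) (fun _ S => ⋃ y, ⋃ x ∈ S, E y x) n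
  have hD : ∀ n, (D n).Countable := fun n => by
    induction n with
    | zero => exact countable_range _
    | succ n ih => exact countable_iUnion fun y => ih.biUnion fun x _ => hE1 y x
  have hDc : (⋃ n, D n).Countable := countable_iUnion hD
  obtain ⟨f, hf, hf'⟩ := michael (φ := fun y => φ y ∩ ⋃ n, D n) (by
      intro U hU
      refine isOpen_iff_mem_nhds.2 fun y ⟨x, ⟨h1, h2⟩, h3⟩ => ?_
      obtain ⟨n, hn⟩ := mem_iUnion.1 h2
      filter_upwards [hE2 y x h1 U hU h3] with y' ⟨z, ⟨h4, h5⟩, h6⟩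
      exact ⟨z, ⟨h4, mem_iUnion.2 ⟨n + 1, mem_iUnion.2 ⟨y, mem_biUnion hn h5⟩⟩⟩, h6⟩)
    (fun y => ⟨x0 y, hx0 y, mem_iUnion.2 ⟨0, mem_range_self y⟩⟩) (D := ⋃ n, D n)
    (fun y => inter_subset_right) (fun x _ => hfc _ hDc x)
  exact ⟨f, hf, fun y => (hf' y).1⟩

lemma setSel_of_seqSel {P : Set X → Prop} (h : SeqSel X P) : SetSel X P := by
  intro x A hA
  obtain ⟨a, ha, ha'⟩ := h x A hA
  refine ⟨fun n => {a n}, fun n => ⟨singleton_subset_iff.2 (ha n), countable_singleton _⟩,
    fun U hU => ?_⟩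
  obtain ⟨V, hV, h1⟩ := ha' U hU
  exact ⟨V, hV, h1.mono fun n h2 h3 => ⟨a n, rfl, h2 h3⟩⟩

lemma setSel_of_tight (ht : CountablyTight X) (h : SeqSel X IsClosed) :
    SetSel X (fun _ => True) := by
  intro x A hA
  obtain ⟨b, hb, hb'⟩ := h x (fun n => closure (A n))
    (fun n => ⟨(hA n).1.closure, isClosed_closure⟩)
  choose C hC1 hC2 hC3 using fun n => ht (A n) (b n) (hb n)
  refine ⟨C, fun n => ⟨hC1 n, hC2 n⟩, fun U hU => ?_⟩
  obtain ⟨V, hV, h1⟩ := hb' (interior U) (interior_mem_nhds.2 hU)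
  refine ⟨V, hV, h1.mono fun n h2 h3 => ?_⟩
  obtain ⟨z, hz1, hz2⟩ := mem_closure_iff.1 (hC3 n) _ isOpen_interior
    (h2 (h3.mono (inter_subset_inter_left _ subset_closure)))
  exact ⟨z, hz2, interior_subset hz1⟩

/-- **Main result.**  For a `T₁` space `X` the following are equivalent: `X` is strongly
`C`-selective; `X` is `C`-selective and Frechet; `X` is `C`-selective and countably tight; `X` is
strongly `Y`-selective for all countable regular `Y` with at most one non-isolated point; `X` has the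
sequence selection property for arbitrary sets.  And the following are equivalent: `X` is
`C`-selective; `X` is `Y`-selective for all countable regular `Y` with at most one non-isolated
point; `X` has the sequence selection property for closed sets. -/
theorem result (X : Type u) [TopologicalSpace X] [T1Space X] :
    [StronglyCSelective X, CSelective X ∧ FrechetUrysohnSpace X, CSelective X ∧ CountablyTight X,
      StronglyPointSelective X, SeqSel X (fun _ => True)].TFAE ∧
    [CSelective X, PointSelective X, SeqSel X IsClosed].TFAE := by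
  have c1 : CSelective X → PointSelective X := fun h Y _ _ _ _ _ => h Y
  have c2 : PointSelective X → SeqSel X IsClosed := fun h =>
    seqSel_of_point IsClosed (fun x => isClosed_singleton) h
  have fc : SeqSel X IsClosed → ∀ D : Set X, D.Countable → ∀ x, FC D x := fun h D hD x =>
    fc_of_seqSel (fun x y => (toFinite {x, y}).isClosed) h hD x
  have c3 : SeqSel X IsClosed → CSelective X := fun h Y _ _ _ _ φ hl hne =>
    selection (setSel_of_seqSel h) (fc h) Y φ hl hne
  have s1 : StronglyCSelective X → StronglyPointSelective X := fun h Y _ _ _ _ _ => h Y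
  have s2 : StronglyPointSelective X → SeqSel X (fun _ => True) := fun h =>
    seqSel_of_point _ (fun x => trivial) fun Y _ _ _ _ hY φ hl hne =>
      h Y hY φ hl fun y => (hne y).1
  have s3 : SeqSel X (fun _ => True) → CSelective X ∧ FrechetUrysohnSpace X := by
    intro h
    refine ⟨c3 fun x A hA => h x A fun n => ⟨(hA n).1, trivial⟩, ⟨fun A x hx => ?_⟩⟩
    obtain ⟨a, ha, ha'⟩ := h x (fun _ => A) fun n => ⟨closure_nonempty_iff.1 ⟨x, hx⟩, trivial⟩
    refine ⟨a, ha, fun U hU => ?_⟩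
    obtain ⟨V, hV, h1⟩ := ha' U hU
    refine h1.mono fun n h2 => h2 ?_
    rw [inter_comm]
    exact mem_closure_iff_nhds.1 hx V hV
  have s4 : CSelective X ∧ FrechetUrysohnSpace X → CSelective X ∧ CountablyTight X := by
    rintro ⟨h1, h2⟩
    refine ⟨h1, fun A x hx => ?_⟩
    obtain ⟨a, ha, ha'⟩ := mem_closure_iff_seq_limit.1 hx
    refine ⟨range a, range_subset_iff.2 ha, countable_range _, ?_⟩
    exact mem_closure_of_tendsto ha' (Eventually.of_forall fun n => mem_range_self n)
  have s5 : CSelective X ∧ CountablyTight X → StronglyCSelective X := by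
    rintro ⟨h1, h2⟩ Y _ _ _ _ φ hl hne
    have h3 := c2 (c1 h1)
    exact selection (setSel_of_tight h2 h3) (fc h3) Y φ hl fun y => ⟨hne y, trivial⟩
  constructor
  · tfae_have 1 → 4 := s1
    tfae_have 4 → 5 := s2
    tfae_have 5 → 2 := s3
    tfae_have 2 → 3 := s4
    tfae_have 3 → 1 := s5
    tfae_finish
  · tfae_have 1 → 2 := c1
    tfae_have 2 → 3 := c2
    tfae_have 3 → 1 := c3
    tfae_finish

end Pool.Agent.Results.MP_f865b7_gt.Characterisation
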